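import Mathlib

/-!
The arithmetic for `MP_8dbee4_ag/AllDegreeTuples` (helper33).
-/

set_option autoImplicit false

open Finset

namespace Pool.Agent.H33CD

/-- the exponent at `p` -/
def e (n p : ℕ) : ℕ := n + (n - 1) / (p - 1)

/-- the additional exponent -/
def c (n p : ℕ) : ℕ := Nat.log p n * ((n + (n - 1) / (p - 1)) ^ 2 - 1)

/-- the exponent of `p` in `Q` -/
def s (n D p : ℕ) : ℕ := (D.factorization p - c n p) / e n p

/-- the common divisor -/
def Q (n D : ℕ) : ℕ := ∏ p ∈ D.primeFactors, p ^ s n D p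

/-- the product of the primes dividing `D` -/
def rad (D : ℕ) : ℕ := ∏ p ∈ D.primeFactors, p

lemma Q_pos (n D : ℕ) : 0 < Q n D :=
  prod_pos fun p hp => pow_pos (Nat.prime_of_mem_primeFactors hp).pos _

lemma rad_pos (D : ℕ) : 0 < rad D :=
  prod_pos fun p hp => (Nat.prime_of_mem_primeFactors hp).pos

lemma e_pos {n : ℕ} (hn : 1 ≤ n) (p : ℕ) : 0 < e n p :=
  lt_of_lt_of_le (show 0 < n by omega) (Nat.le_add_right _ _)

lemma e_le {n : ℕ} (hn : 1 ≤ n) (p : ℕ) (hp : p.Prime) : e n p ≤ 2 * n - 1 := by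
  unfold e
  have := Nat.div_le_self (n - 1) (p - 1)
  omega

lemma Q_fac (n D p : ℕ) (hp : p.Prime) (h : p ∣ Q n D) :
    (Q n D).factorization p = s n D p ∧ p ∣ D ∧ 0 < s n D p := by
  have h1 : ∀ q ∈ D.primeFactors, q ^ s n D q ≠ 0 := fun q hq =>
    pow_ne_zero _ (Nat.prime_of_mem_primeFactors hq).ne_zero
  obtain ⟨q, hq, hpq⟩ := (hp.prime.dvd_finsetProd_iff _).1 h
  have hqp := Nat.prime_of_mem_primeFactors hq
  have h2 : p = q := (Nat.prime_dvd_prime_iff_eq hp hqp).1 (hp.dvd_of_dvd_pow hpq)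
  subst h2
  have h3 : (Q n D).factorization p = s n D p := by
    unfold Q
    rw [Nat.factorization_prod h1, Finsupp.finsetSum_apply, sum_eq_single p]
    · rw [Nat.factorization_pow, Finsupp.smul_apply, hp.factorization_self, smul_eq_mul, mul_one]
    · intro q' hq' hne
      rw [Nat.factorization_pow, Finsupp.smul_apply,
        (Nat.prime_of_mem_primeFactors hq').factorization, Finsupp.single_apply, if_neg hne,
        smul_zero]
    · exact fun hn => absurd hq hn
  refine ⟨h3, Nat.dvd_of_mem_primeFactors hq, ?_⟩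
  by_contra h4
  have h5 : s n D p = 0 := by omega
  rw [h5, pow_zero] at hpq
  exact hp.one_lt.ne' (Nat.dvd_one.1 hpq)

/-- the condition of `AllPrimes` -/
lemma cond {n D : ℕ} (hD : D ≠ 0) (p : ℕ) (hp : p.Prime) (h : p ∣ Q n D) :
    p ^ ((n + (n - 1) / (p - 1)) * (Q n D).factorization p +
      Nat.log p n * ((n + (n - 1) / (p - 1)) ^ 2 - 1)) ∣ D := by
  obtain ⟨h1, -, h3⟩ := Q_fac n D p hp h
  rw [h1]
  refine (hp.pow_dvd_iff_le_factorization hD).2 ?_
  have h4 : e n p * s n D p ≤ D.factorization p - c n p := Nat.mul_div_le _ _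
  have h5 : 0 < D.factorization p - c n p := by
    by_contra h6
    have h7 : D.factorization p - c n p = 0 := by omega
    unfold s at h3
    rw [h7, Nat.zero_div] at h3
    exact lt_irrefl _ h3
  unfold e c at *
  omega

lemma fac_le {n D : ℕ} (hn : 1 ≤ n) (p : ℕ) :
    D.factorization p ≤ e n p * s n D p + (e n p - 1) + c n p := by
  have h1 := Nat.lt_mul_div_succ (D.factorization p - c n p) (e_pos hn p)
  have h2 : e n p * (s n D p + 1) = e n p * s n D p + e n p := by ring
  have h3 := e_pos hn p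
  unfold s at *
  omega

lemma prod_fac {D : ℕ} (hD : D ≠ 0) : D = ∏ p ∈ D.primeFactors, p ^ D.factorization p :=
  (Nat.prod_factorization_pow_eq_self hD).symm

lemma c_zero {n p : ℕ} (h : n < p) : c n p = 0 := by
  unfold c
  rw [Nat.log_of_lt h, zero_mul]

lemma c_pow_le {n p : ℕ} (hn : 1 ≤ n) (hp : p.Prime) : p ^ c n p ≤ n ^ (4 * n ^ 2) := by
  have h1 : p ^ Nat.log p n ≤ n := Nat.pow_log_le_self p (by omega)
  have h2 := e_le hn p hp
  have h3 : e n p ^ 2 ≤ 4 * n ^ 2 := by
    have : e n p ≤ 2 * n := by omega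
    calc e n p ^ 2 ≤ (2 * n) ^ 2 := Nat.pow_le_pow_left this 2
      _ = _ := by ring
  have h4 : e n p ^ 2 - 1 ≤ 4 * n ^ 2 := by omega
  calc p ^ c n p = (p ^ Nat.log p n) ^ (e n p ^ 2 - 1) := by
        rw [← pow_mul]
        rfl
    _ ≤ n ^ (e n p ^ 2 - 1) := Nat.pow_le_pow_left h1 _
    _ ≤ n ^ (4 * n ^ 2) := Nat.pow_le_pow_right (by omega) h4

lemma c_prod_le {n D : ℕ} (hn : 1 ≤ n) : ∏ p ∈ D.primeFactors, p ^ c n p ≤ n ^ (4 * n ^ 3) := by
  have h1 : ∏ p ∈ D.primeFactors, p ^ c n p = ∏ p ∈ D.primeFactors.filter (fun p => p ≤ n),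
      p ^ c n p := by
    rw [prod_filter]
    refine prod_congr rfl fun p hp => ?_
    split_ifs with h
    · rfl
    · rw [c_zero (by omega), pow_zero]
  have h2 : (D.primeFactors.filter (fun p => p ≤ n)).card ≤ n := by
    calc (D.primeFactors.filter (fun p => p ≤ n)).card ≤ (Icc 1 n).card := by
          refine card_le_card fun p hp => ?_
          rw [mem_filter] at hp
          exact mem_Icc.2 ⟨(Nat.prime_of_mem_primeFactors hp.1).one_le, hp.2⟩
      _ = n := by simp
  rw [h1]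
  calc ∏ p ∈ D.primeFactors.filter (fun p => p ≤ n), p ^ c n p
      ≤ ∏ _p ∈ D.primeFactors.filter (fun p => p ≤ n), n ^ (4 * n ^ 2) := by
        refine prod_le_prod' fun p hp => ?_
        rw [mem_filter] at hp
        exact c_pow_le hn (Nat.prime_of_mem_primeFactors hp.1)
    _ = (n ^ (4 * n ^ 2)) ^ (D.primeFactors.filter (fun p => p ≤ n)).card := by
        rw [prod_const]
    _ ≤ (n ^ (4 * n ^ 2)) ^ n := Nat.pow_le_pow_right (pow_pos (by omega) _) h2
    _ = n ^ (4 * n ^ 3) := by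
        rw [← pow_mul]
        congr 1
        ring

/-- the size of `Q` -/
theorem size {n D : ℕ} (hn : 1 ≤ n) (hD : D ≠ 0) :
    D ≤ n ^ (4 * n ^ 3) * rad D ^ (2 * n - 2) * Q n D ^ (2 * n - 1) := by
  have h1 : ∀ p ∈ D.primeFactors, p ^ D.factorization p ≤
      p ^ c n p * p ^ (2 * n - 2) * (p ^ s n D p) ^ (2 * n - 1) := by
    intro p hp
    have hpp := Nat.prime_of_mem_primeFactors hp
    have h2 := fac_le hn (D := D) p
    have h3 := e_le hn p hpp
    have h4 : e n p * s n D p ≤ s n D p * (2 * n - 1) := by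
      rw [mul_comm]
      exact Nat.mul_le_mul_left _ h3
    rw [← pow_mul, ← pow_add, ← pow_add]
    exact Nat.pow_le_pow_right hpp.pos (by omega)
  calc D = ∏ p ∈ D.primeFactors, p ^ D.factorization p := prod_fac hD
    _ ≤ ∏ p ∈ D.primeFactors, (p ^ c n p * p ^ (2 * n - 2) * (p ^ s n D p) ^ (2 * n - 1)) :=
        prod_le_prod' h1
    _ = (∏ p ∈ D.primeFactors, p ^ c n p) * rad D ^ (2 * n - 2) * Q n D ^ (2 * n - 1) := by
        rw [prod_mul_distrib, prod_mul_distrib, prod_pow, prod_pow]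
        rfl
    _ ≤ _ := by
        gcongr
        exact c_prod_le hn

/-- the size of `Q` if no prime up to `n` divides `D` -/
theorem size' {n D : ℕ} (hn : 1 ≤ n) (hD : D ≠ 0) (h : ∀ p : ℕ, p.Prime → p ∣ D → n < p) :
    D ≤ rad D ^ (n - 1) * Q n D ^ n := by
  have h1 : ∀ p ∈ D.primeFactors, p ^ D.factorization p ≤
      p ^ (n - 1) * (p ^ s n D p) ^ n := by
    intro p hp
    have hpp := Nat.prime_of_mem_primeFactors hp
    have hnp := h p hpp (Nat.dvd_of_mem_primeFactors hp)
    have h2 := fac_le hn (D := D) p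
    have h3 : e n p = n := by
      unfold e
      rw [Nat.div_eq_of_lt (by omega), add_zero]
    rw [h3, c_zero hnp] at h2
    have h4 : n * s n D p = s n D p * n := mul_comm _ _
    rw [← pow_mul, ← pow_add]
    exact Nat.pow_le_pow_right hpp.pos (by omega)
  calc D = ∏ p ∈ D.primeFactors, p ^ D.factorization p := prod_fac hD
    _ ≤ ∏ p ∈ D.primeFactors, (p ^ (n - 1) * (p ^ s n D p) ^ n) := prod_le_prod' h1
    _ = rad D ^ (n - 1) * Q n D ^ n := by
        rw [prod_mul_distrib, prod_pow, prod_pow]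
        rfl

lemma rad_le {D M : ℕ} (h : ∀ p : ℕ, p.Prime → p ∣ D → p ≤ M) : rad D ≤ 4 ^ M := by
  refine le_trans ?_ (primorial_le_four_pow M)
  unfold rad primorial
  refine prod_le_prod_of_subset_of_one_le' (fun p hp => ?_) fun p hp _ => ?_
  · have hpp := Nat.prime_of_mem_primeFactors hp
    rw [mem_filter, mem_range]
    exact ⟨Nat.lt_succ_of_le (h p hpp (Nat.dvd_of_mem_primeFactors hp)), hpp⟩
  · exact (mem_filter.1 hp).2.one_le

end Pool.Agent.H33CD
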